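import Pool.Agent.TH561.AD.Adq

/-!
# Freely periodic knots with adequate quotients

`Pool.Agent.TH561.PK.Defs` contains the definitions:

* `Elem M`: an elementary tangle on `M` vertical strands: a crossing of one of the two kinds between
  the places `i` and `i + 1`, or a hook (the two lower points at the places `i`, `i + 1` are joined by a
  cap, the two upper points by a cup);
* `annular w dir`: the closure in the annulus of the tangle `w 0, w 1, …, w (L-1)` (one above the
  other); its marked points are the points `(t, j)` (level `t ∈ ℤ/L`, place `j`);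
* `Oriented w dir`: `dir` is an orientation of the curves of this diagram (`dir (t, j) = true`: upwards);
* `IsKnot D`: all marked points are on one curve.

`pw n w` (in `Pool.Agent.TH561.PK.Knot`) is the word `w` repeated `n` times, and `freeWord n w a`
(in `Pool.Agent.TH561.FP.Defs`) is the word `w` repeated `n` times, followed by `a` full twists on all
`M` strands, that is by the word `(σ_0 σ_1 ⋯ σ_{M-2})^M` repeated `|a|` times, with crossings of the
kind given by the sign of `a`.

`Pool.Agent.TH561.AD.Sm` contains the definitions `smA`, `smB` (the two smoothings of a letter),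
`circles u` (the number of the circles of the smoothed diagram `u` in the annulus, essential or not),
`AAdequate w`, `BAdequate w` (changing one smoothing in the state in which all smoothings are of
type `A`, respectively `B`, decreases the number of circles) and `crossings w`.
-/

set_option autoImplicit false

namespace Pool.Agent.Results.MP_79b4ff_gt.AdequateQuotients

open Pool.Agent.H891R2.Jones Pool.Agent.TH561.PK Pool.Agent.TH561.FP Pool.Agent.TH561.AD

/-- Let `D` be a knot diagram which is the closure in the annulus of `w ^ q` followed by `a` full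
twists on all `M` strands, where `q = p ^ k` is a power of an odd prime `p` with
`2 q > M (|a| M + 1)`.

* If the closure of `w ^ 2` is an adequate diagram and `w` contains a crossing, then `f_D` is not
  congruent to `1` modulo `p`; so `f_D ≠ 1`.
* Let `f_D ≡ 1` modulo `p`.  If the closure of `w ^ 2` is `A`-adequate then three times the writhe of
  the closure of `w` is equal to `c + 2 (s - 1)`, where `c` is the number of crossings of `w` and `s` is
  the number of circles of the `A`-state of the closure of `w`, and the `A`-state of the closure
  of `w ^ 2` has `2 s - 1` circles.  The same holds for `B` and the negative of the writhe. -/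
theorem result (M l : ℕ) (hl : 0 < l) (w : Fin l → Elem M) (a : ℤ) (p k : ℕ) (hp : p.Prime)
    (hp2 : p ≠ 2) (hk : 1 ≤ k) (hq : M * (a.natAbs * M + 1) < 2 * p ^ k)
    (dir : Fin (p ^ k * l + a.natAbs * (M * (M - 1))) × Fin M → Bool)
    (ho : Oriented (freeWord (p ^ k) w a) dir) (hK : IsKnot (annular (freeWord (p ^ k) w a) dir)) :
    (annular (freeWord (p ^ k) w a) dir).IsClosed ∧
    (AAdequate (pw 2 w) → BAdequate (pw 2 w) → crossings w ≠ 0 →
      ∃ n, ¬ (p : ℤ) ∣ ((annular (freeWord (p ^ k) w a) dir).fPoly - 1).coeff n) ∧
    ((∀ n, (p : ℤ) ∣ ((annular (freeWord (p ^ k) w a) dir).fPoly - 1).coeff n) →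
      ∀ d : Fin l × Fin M → Bool, Oriented w d →
        (AAdequate (pw 2 w) → circles (smA ∘ pw 2 w) + 1 = 2 * circles (smA ∘ w) ∧
          3 * (annular w d).writhe = crossings w + 2 * ((circles (smA ∘ w) : ℤ) - 1)) ∧
        (BAdequate (pw 2 w) → circles (smB ∘ pw 2 w) + 1 = 2 * circles (smB ∘ w) ∧
          -(3 * (annular w d).writhe) = crossings w + 2 * ((circles (smB ∘ w) : ℤ) - 1))) := by
  have hM : 0 < M := by
    have := (w ⟨0, hl⟩).2.2
    omega
  have : Fact p.Prime := ⟨hp⟩
  have hodd : Odd (p ^ k) := (hp.odd_of_ne_two hp2).pow
  refine ⟨annular_closed _ dir ho, fun hA hB hc => ?_, fun hf d hd => ?_⟩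
  · by_contra hcon
    have hf : ∀ n, (p : ℤ) ∣ ((annular (freeWord (p ^ k) w a) dir).fPoly - 1).coeff n := by
      intro n
      by_contra h
      exact hcon ⟨n, h⟩
    rw [← red_eq_one] at hf
    obtain ⟨h1, h2⟩ := adequate_modp p k hk hp2 hl hM w a hq dir ho hK hf _
      (knot_writhe hl hM (p ^ k) hodd w a dir ho hK).1
    obtain ⟨a1, a2⟩ := h1 hA
    obtain ⟨b1, b2⟩ := h2 hB
    apply hc
    omega
  · rw [← red_eq_one] at hf
    exact adequate_modp p k hk hp2 hl hM w a hq dir ho hK hf d hd

end Pool.Agent.Results.MP_79b4ff_gt.AdequateQuotients
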